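import Pool.Agent.Run7.h871.CS.Up
import Pool.Agent.Run7.h967.AL.Count
import Pool.Agent.W424.NC.ArmUp
import Pool.Agent.H974R2.FourArm

/-!
Part `S_ANI` of the project CS of helper871: large clusters below the critical point, by blocks and
lattice animals.
-/

set_option autoImplicit false

namespace Pool.Agent.Run7.h763.CS

open Finset H974 H31K Pool.Agent.H160R2.CV Pool.Agent.H160R2.CV.Quad Pool.Agent.W424.NC CS871

/-! ### crossings of an annulus around a block -/

/-- the crossing of the annulus around `c` between the radii `M - 1` and `2 M - 1` -/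
def G (M : ℕ) (c : Vtx) (F : Finset Edg) : Prop := Quad.Cr c (M - 1) (2 * M - 1) F

theorem G_inc (M : ℕ) (c : Vtx) : IncA (G M c) := Quad.Cr_inc _ _ _

theorem G_loc (M : ℕ) (c : Vtx) : LocE (bo c (2 * M - 1)) (G M c) := by
  intro F
  have h1 := Quad.Cr_loc (v := c) (r := M - 1) (n := 2 * M - 1) F
  have h2 := Quad.Cr_loc (v := c) (r := M - 1) (n := 2 * M - 1) (F ∩ bo c (2 * M - 1))
  have e : F ∩ bo c (2 * M - 1) ∩ (bo c (2 * M - 1) \ bo c (M - 1)) =
      F ∩ (bo c (2 * M - 1) \ bo c (M - 1)) := by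
    ext e; simp only [Finset.mem_inter, Finset.mem_sdiff]; tauto
  rw [e] at h2
  exact h1.trans h2.symm

/-- the crossing from a vertex of the block to a vertex outside of the large box -/
theorem G_of_reach {M : ℕ} (hM : 1 ≤ M) {c x y : Vtx} {F : Finset Edg} (hx : nv (x - c) ≤ M - 1)
    (hy : 2 * M - 1 ≤ nv (y - c)) (h : Reach (↑F : Set Edg) x y) : G M c F := by
  have e1 : ((2 * M - 1 : ℕ) : ℤ) = 2 * M - 1 := by omega
  have e2 : ((M - 1 : ℕ) : ℤ) = M - 1 := by omega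
  unfold nv at hx hy
  simp only [Prod.fst_sub, Prod.snd_sub] at hx hy
  obtain ⟨w, k1, k2, k3⟩ := first_exit (a := c.1 - (2 * M - 1 : ℕ)) (b := c.1 + (2 * M - 1 : ℕ))
    (c := c.2 - (2 * M - 1 : ℕ)) (d := c.2 + (2 * M - 1 : ℕ))
    (by unfold inR; omega) h (by omega)
  obtain ⟨u, hu, hr⟩ := last_exit (a := c.1 - (M - 1 : ℕ)) (b := c.1 + (M - 1 : ℕ))
    (c := c.2 - (M - 1 : ℕ)) (d := c.2 + (M - 1 : ℕ)) (by unfold inR; omega) k3
  refine ⟨u, w, hu, k1, k2, hr.mono ?_⟩
  intro e he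
  refine ⟨he.1.1, ?_⟩
  rw [Finset.coe_sdiff]
  exact ⟨he.1.2, he.2⟩

/-- the probability of a crossing -/
theorem pr_G {p : ℝ} (h0 : 0 ≤ p) (h1 : p ≤ 1) {N : ℕ} (hN : 2 ≤ N)
    (he : eps (1 - p) N ≤ 1/100) (j : ℕ) (S : Finset Edg) (c : Vtx) :
    Pr (fun _ => p) S (G (2 ^ j * N) c) ≤ (1/4) ^ (2 ^ j) := by
  have ok := okq h0 h1
  obtain ⟨M, hM⟩ : ∃ M : ℕ, M = 2 ^ j * N := ⟨_, rfl⟩
  have hM2 : 2 ≤ M := by
    rw [hM]
    calc 2 ≤ N := hN
      _ ≤ 2^j * N := Nat.le_mul_of_pos_left _ (by positivity)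
  have h3 := pr_nblk_pow h0 h1 hN he j (S := boxE (2 * (2^j * N) - 1)) (annE_sub _ _)
  rw [← hM] at h3 ⊢
  have s1 : Pr (fun _ => p) S (G M c) ≤ barm p (M - 1) (2 * M - 1) := by
    obtain ⟨a, b⟩ := c
    refine le_trans (Pr_mono ok
      (B := fun F => BArm (M - 1) (2 * M - 1) ((trl (-a) (-b)).mp F)) ?_) ?_
    · rintro F _ ⟨u, w, k0, k1, k2, k3⟩
      have k3' : Reach (↑F ∩ ↑(RE (a - (2 * M - 1 : ℕ)) (a + (2 * M - 1 : ℕ))
          (b - (2 * M - 1 : ℕ)) (b + (2 * M - 1 : ℕ)))) u w := by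
        refine k3.mono (Set.inter_subset_inter_right _ ?_)
        intro e he
        rw [Finset.coe_sdiff] at he
        exact he.1
      have h1 := (trl (-a) (-b)).reach k3'
      rw [LSym.image_inter, trl_RE, trl_ψ, trl_ψ] at h1
      have e : RE (a - (2 * M - 1 : ℕ) + -a) (a + (2 * M - 1 : ℕ) + -a)
          (b - (2 * M - 1 : ℕ) + -b) (b + (2 * M - 1 : ℕ) + -b) = boxE (2 * M - 1) := by
        unfold boxE; congr 1 <;> ring
      rw [e] at h1
      refine ⟨_, _, ?_, ?_, h1⟩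
      · unfold inR at k0 ⊢; simp only at k0 ⊢; omega
      · unfold onB inR at *; simp only at *; omega
    · exact Pr_shift_le h0 h1 (trl (-a) (-b)) S (fun F G h hF => hF.mono h)
        (fun F => BArm_local (Finset.Subset.refl _))
  refine s1.trans (le_trans ?_ h3)
  unfold barm
  apply Pr_mono ok
  rintro F _ ⟨u, v, k0, ⟨k1, k2⟩, k3⟩
  exact not_blk_of_reach (R1 := ((M - 1 : ℕ) : ℤ)) (R2 := ((2 * M - 1 : ℕ) : ℤ)) (by omega) k0
    (k3.mono Set.inter_subset_left) (by omega)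

/-- arms and crossings in disjoint boxes -/
theorem pr_AG {p : ℝ} (h0 : 0 ≤ p) (h1 : p ≤ 1) {M N : ℕ} {q a : ℝ} (hq : 0 ≤ q)
    (hG : ∀ (S : Finset Edg) (c : Vtx), Pr (fun _ => p) S (G M c) ≤ q)
    (hA : ∀ (S : Finset Edg), Pr (fun _ => p) S (LA (0, 0) N) ≤ a)
    (X : Finset Vtx)
    (hd0 : ∀ x ∈ X, Disjoint (bo x (2 * M - 1)) (bo (0, 0) N))
    (hd : ∀ x ∈ X, ∀ y ∈ X, x ≠ y → Disjoint (bo x (2 * M - 1)) (bo y (2 * M - 1)))
    (S : Finset Edg) :
    Pr (fun _ => p) S (fun F => LA (0, 0) N F ∧ ∀ x ∈ X, G M x F) ≤ a * q ^ X.card := by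
  classical
  have ok := okq h0 h1
  induction X using Finset.induction_on generalizing S with
  | empty =>
    rw [Finset.card_empty, pow_zero, mul_one]
    exact le_trans (Pr_mono ok (fun F _ h => h.1)) (hA S)
  | insert x X hx ih =>
    rw [Finset.card_insert_of_notMem hx, pow_succ]
    have e1 : Pr (fun _ => p) S (fun F => LA (0, 0) N F ∧ ∀ y ∈ insert x X, G M y F) =
        Pr (fun _ => p) S (fun F => G M x F ∧ (LA (0, 0) N F ∧ ∀ y ∈ X, G M y F)) := by
      apply Pr_congr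
      intro F _
      rw [Finset.forall_mem_insert]
      tauto
    rw [e1]
    have hdis : Disjoint (bo x (2 * M - 1))
        (bo (0, 0) N ∪ X.biUnion fun y => bo y (2 * M - 1)) := by
      rw [Finset.disjoint_union_right, Finset.disjoint_biUnion_right]
      exact ⟨hd0 x (Finset.mem_insert_self _ _), fun y hy =>
        hd x (Finset.mem_insert_self _ _) y (Finset.mem_insert_of_mem hy) (fun h => hx (h ▸ hy))⟩
    have hi : IncA (fun F => LA (0, 0) N F ∧ ∀ y ∈ X, G M y F) :=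
      fun F G' h hF => ⟨LA_inc _ _ F G' h hF.1, fun y hy => G_inc M y F G' h (hF.2 y hy)⟩
    have hl : LocE (bo (0, 0) N ∪ X.biUnion fun y => bo y (2 * M - 1))
        (fun F => LA (0, 0) N F ∧ ∀ y ∈ X, G M y F) := by
      intro F
      show (LA (0, 0) N F ∧ ∀ y ∈ X, G M y F) ↔
        (LA (0, 0) N (F ∩ (bo (0, 0) N ∪ X.biUnion fun y => bo y (2 * M - 1))) ∧
          ∀ y ∈ X, G M y (F ∩ (bo (0, 0) N ∪ X.biUnion fun y => bo y (2 * M - 1))))
      refine and_congr (LA_loc Finset.subset_union_left F) ?_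
      refine forall_congr' fun y => forall_congr' fun hy => ?_
      have hsub : bo y (2 * M - 1) ⊆ bo (0, 0) N ∪ X.biUnion fun y => bo y (2 * M - 1) :=
        (Finset.subset_biUnion_of_mem (fun y => bo y (2 * M - 1)) hy).trans
          Finset.subset_union_right
      rw [G_loc M y F, G_loc M y (F ∩ (bo (0, 0) N ∪ X.biUnion fun y => bo y (2 * M - 1)))]
      have e2 : F ∩ (bo (0, 0) N ∪ X.biUnion fun y => bo y (2 * M - 1)) ∩ bo y (2 * M - 1) =
          F ∩ bo y (2 * M - 1) := by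
        rw [Finset.inter_assoc, Finset.inter_eq_right.2 hsub]
      rw [e2]
    refine (ind2 ok S (bo x (2 * M - 1)) _ hdis (G_inc M x) hi (G_loc M x) hl).trans ?_
    have h3 := ih (fun y hy => hd0 y (Finset.mem_insert_of_mem hy))
      (fun y hy z hz => hd y (Finset.mem_insert_of_mem hy) z (Finset.mem_insert_of_mem hz))
      (bo (0, 0) N ∪ X.biUnion fun y => bo y (2 * M - 1))
    calc _ ≤ q * (a * q ^ X.card) :=
          mul_le_mul (hG _ _) h3 (Pr_nonneg ok _ _) hq
      _ = a * (q ^ X.card * q) := by ring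

/-! ### blocks -/

/-- the block of a vertex -/
def zt (M : ℕ) (x : Vtx) : Vtx :=
  ((x.1 + (M - 1)) / (2 * M - 1), (x.2 + (M - 1)) / (2 * M - 1))

/-- the centre of a block -/
def ct (M : ℕ) (z : Vtx) : Vtx := ((2 * M - 1) * z.1, (2 * M - 1) * z.2)

theorem zt_one {M : ℤ} (hM : 1 ≤ M) {x z : ℤ} (h : (x + (M - 1)) / (2 * M - 1) = z) :
    (2 * M - 1) * z - (M - 1) ≤ x ∧ x ≤ (2 * M - 1) * z + (M - 1) := by
  have h1 := Int.mul_ediv_add_emod (x + (M - 1)) (2 * M - 1)
  have h2 := Int.emod_nonneg (x + (M - 1)) (b := 2 * M - 1) (by omega)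
  have h3 := Int.emod_lt_of_pos (x + (M - 1)) (b := 2 * M - 1) (by omega)
  rw [h] at h1
  constructor <;> linarith

theorem nv_zt {M : ℕ} (hM : 1 ≤ M) (x : Vtx) : nv (x - ct M (zt M x)) ≤ M - 1 := by
  have hM' : (1:ℤ) ≤ M := by exact_mod_cast hM
  have h1 := zt_one (M := (M:ℤ)) hM' (x := x.1) (z := (zt M x).1) rfl
  have h2 := zt_one (M := (M:ℤ)) hM' (x := x.2) (z := (zt M x).2) rfl
  unfold nv ct
  simp only [Prod.fst_sub, Prod.snd_sub]
  generalize (2 * (M:ℤ) - 1) * (zt M x).1 = s1 at *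
  generalize (2 * (M:ℤ) - 1) * (zt M x).2 = s2 at *
  omega

theorem zt_zero {M : ℕ} (hM : 1 ≤ M) : zt M (0, 0) = (0, 0) := by
  have hM' : (1:ℤ) ≤ M := by exact_mod_cast hM
  unfold zt
  simp only [zero_add]
  have : ((M:ℤ) - 1) / (2 * M - 1) = 0 := Int.ediv_eq_zero_of_lt (by omega) (by omega)
  rw [this]

/-- neighbours of a block -/
def nbz (z : Vtx) : Finset Vtx := {(z.1 + 1, z.2), (z.1 - 1, z.2), (z.1, z.2 + 1), (z.1, z.2 - 1)}

theorem nbz_symm (z w : Vtx) (h : w ∈ nbz z) : z ∈ nbz w := by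
  obtain ⟨a, b⟩ := z
  obtain ⟨c, d⟩ := w
  unfold nbz at h ⊢
  simp only [Finset.mem_insert, Finset.mem_singleton, Prod.mk.injEq] at h ⊢
  omega

theorem card_nbz (z : Vtx) : (nbz z).card ≤ 4 := by
  unfold nbz
  exact Finset.card_le_four

theorem div_step {x m : ℤ} (hm : 0 < m) : (x + 1) / m = x / m ∨ (x + 1) / m = x / m + 1 := by
  have h1 : x / m ≤ (x + 1) / m := Int.ediv_le_ediv hm (by omega)
  have h2 : (x + 1) / m ≤ (x + m) / m := Int.ediv_le_ediv hm (by omega)
  have h3 : (x + m) / m = x / m + 1 := Int.add_ediv_of_dvd_right (dvd_refl m) ▸ by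
    rw [Int.ediv_self hm.ne']
  omega

theorem zt_adj {M : ℕ} (hM : 1 ≤ M) {F : Set Edg} {x y : Vtx} (h : Adj F x y) :
    zt M y = zt M x ∨ zt M y ∈ nbz (zt M x) := by
  have hm : 0 < 2 * (M:ℤ) - 1 := by
    have : (1:ℤ) ≤ M := by exact_mod_cast hM
    omega
  have key : ∀ u v : Vtx, (v = (u.1 + 1, u.2) ∨ v = (u.1, u.2 + 1)) →
      zt M v = zt M u ∨ zt M v ∈ nbz (zt M u) := by
    rintro ⟨a, b⟩ v (h | h)
    · subst h
      have h1 := div_step (x := a + ((M:ℤ) - 1)) hm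
      have e : a + 1 + ((M:ℤ) - 1) = a + ((M:ℤ) - 1) + 1 := by ring
      unfold zt nbz
      simp only [e, Finset.mem_insert, Finset.mem_singleton, Prod.mk.injEq]
      rcases h1 with h1 | h1
      · left; exact ⟨h1, trivial⟩
      · right; left; exact ⟨h1, trivial⟩
    · subst h
      have h1 := div_step (x := b + ((M:ℤ) - 1)) hm
      have e : b + 1 + ((M:ℤ) - 1) = b + ((M:ℤ) - 1) + 1 := by ring
      unfold zt nbz
      simp only [e, Finset.mem_insert, Finset.mem_singleton, Prod.mk.injEq]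
      rcases h1 with h1 | h1
      · left; exact ⟨trivial, h1⟩
      · right; right; right; left; exact ⟨trivial, h1⟩
  have key2 : ∀ u v : Vtx, (v = (u.1 + 1, u.2) ∨ v = (u.1, u.2 + 1)) →
      zt M u = zt M v ∨ zt M u ∈ nbz (zt M v) := by
    intro u v h
    rcases key u v h with h | h
    · left; exact h.symm
    · right; exact nbz_symm _ _ h
  obtain ⟨⟨a, b, _ | _⟩, -, h⟩ := h
  · simp only [src_mk, tgt_false] at h
    rcases h with ⟨h1, h2⟩ | ⟨h1, h2⟩
    · exact key x y (by right; rw [← h1, ← h2])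
    · exact key2 y x (by right; rw [← h1, ← h2])
  · simp only [src_mk, tgt_true] at h
    rcases h with ⟨h1, h2⟩ | ⟨h1, h2⟩
    · exact key x y (by left; rw [← h1, ← h2])
    · exact key2 y x (by left; rw [← h1, ← h2])

/-- the union of the blocks of a set -/
noncomputable def Db (M : ℕ) (Γ : Finset Vtx) : Finset Vtx :=
  Γ.biUnion fun z => (bx (M - 1)).image fun v => v + ct M z

theorem mem_Db {M : ℕ} (hM : 1 ≤ M) {Γ : Finset Vtx} {x : Vtx} (h : zt M x ∈ Γ) :
    x ∈ Db M Γ := by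
  unfold Db
  rw [Finset.mem_biUnion]
  refine ⟨zt M x, h, ?_⟩
  rw [Finset.mem_image]
  refine ⟨x - ct M (zt M x), ?_, by simp⟩
  rw [mem_bx2]
  exact nv_zt hM x

theorem card_Db {M : ℕ} (hM : 1 ≤ M) (Γ : Finset Vtx) :
    (Db M Γ).card ≤ Γ.card * (4 * M ^ 2) := by
  unfold Db
  refine Finset.card_biUnion_le_card_mul _ _ _ fun z _ => ?_
  refine Finset.card_image_le.trans ?_
  rw [card_bx2]
  obtain ⟨k, rfl⟩ : ∃ k, M = k + 1 := ⟨M - 1, by omega⟩
  simp only [Nat.add_sub_cancel]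
  nlinarith

/-! ### the set of the blocks which meet the cluster -/

/-- the vertices of a cluster in the box stay in the box -/
theorem reach_box {K : ℕ} {F : Finset Edg} (hF : F ⊆ boxE K) {x : Vtx}
    (h : Reach (↑F : Set Edg) (0, 0) x) : nv x ≤ K := by
  induction h with
  | refl => unfold nv; simp
  | @tail y z _ hs ih =>
    obtain ⟨⟨a, b, _ | _⟩, he, h⟩ := hs
    · have h2 := hF (by exact_mod_cast he)
      unfold boxE at h2
      rw [mem_RE_false] at h2
      simp only [src_mk, tgt_false] at h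
      unfold nv
      rcases h with ⟨h3, h4⟩ | ⟨h3, h4⟩
      · rw [← h4]; simp only; omega
      · rw [← h3]; simp only; omega
    · have h2 := hF (by exact_mod_cast he)
      unfold boxE at h2
      rw [mem_RE_true] at h2
      simp only [src_mk, tgt_true] at h
      unfold nv
      rcases h with ⟨h3, h4⟩ | ⟨h3, h4⟩
      · rw [← h4]; simp only; omega
      · rw [← h3]; simp only; omega

/-- the blocks which meet the cluster of the origin -/
noncomputable def Az (M K : ℕ) (F : Finset Edg) : Finset Vtx := by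
  classical exact (cF K F).image (zt M)

theorem Az_anim {M K : ℕ} (hM : 1 ≤ M) {F : Finset Edg} (hF : F ⊆ boxE K) :
    _root_.Run7.h967.AL.Anim (fun P Q => Q ∈ nbz P) (0, 0) (Az M K F) := by
  classical
  have hmem : ∀ x, Reach (↑F : Set Edg) (0, 0) x → zt M x ∈ Az M K F := by
    intro x hx
    unfold Az
    exact Finset.mem_image_of_mem _ (mem_cF.2 ⟨reach_box hF hx, hx⟩)
  refine ⟨?_, ?_⟩
  · have := hmem (0, 0) (Reach.refl _ _)
    rwa [zt_zero hM] at this
  · intro Q hQ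
    unfold Az at hQ
    rw [Finset.mem_image] at hQ
    obtain ⟨x, hx, rfl⟩ := hQ
    rw [mem_cF] at hx
    have hx2 := hx.2
    clear hx
    have key : ∀ y, Reach (↑F : Set Edg) (0, 0) y →
        Relation.ReflTransGen (fun P Q => Q ∈ nbz P ∧ P ∈ Az M K F ∧ Q ∈ Az M K F) (0, 0)
          (zt M y) := by
      intro y hy
      induction hy with
      | refl => rw [zt_zero hM]
      | @tail y z hy hs ih =>
        rcases zt_adj hM hs with h | h
        · rw [h]; exact ih
        · exact ih.tail ⟨h, hmem y hy, hmem z (hy.tail hs)⟩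
    exact key x hx2

/-! ### many blocks of one class -/

/-- the residues of a block mod 3 -/
def rs (z : Vtx) : ZMod 3 × ZMod 3 := ((z.1 : ZMod 3), (z.2 : ZMod 3))

theorem far_of_rs {z w : Vtx} (h : rs z = rs w) (hzw : z ≠ w) : 3 ≤ nv (z - w) := by
  unfold rs at h
  rw [Prod.mk.injEq] at h
  obtain ⟨h1, h2⟩ := h
  rw [ZMod.intCast_eq_intCast_iff_dvd_sub] at h1 h2
  push_cast at h1 h2
  have h3 : z.1 ≠ w.1 ∨ z.2 ≠ w.2 := by
    by_contra hc
    push Not at hc
    exact hzw (Prod.ext hc.1 hc.2)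
  unfold nv
  simp only [Prod.fst_sub, Prod.snd_sub]
  obtain ⟨a, ha⟩ := h1
  obtain ⟨b, hb⟩ := h2
  omega

theorem exists_class (Γ : Finset Vtx) : ∃ X ⊆ Γ, (∀ z ∈ X, 2 ≤ nv z) ∧
    (∀ z ∈ X, ∀ w ∈ X, z ≠ w → 3 ≤ nv (z - w)) ∧ Γ.card ≤ 9 * X.card + 9 := by
  classical
  obtain ⟨Γ', hΓ'⟩ : ∃ Γ' : Finset Vtx, Γ' = Γ \ bx 1 := ⟨_, rfl⟩
  have hc : Γ.card ≤ Γ'.card + 9 := by
    have h1 : Γ.card ≤ (Γ \ bx 1).card + (bx 1).card := by
      have := Finset.le_card_sdiff (bx 1) Γ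
      omega
    rw [card_bx2] at h1
    rw [hΓ']
    omega
  by_contra hcon
  push Not at hcon
  have h2 : ∀ r : ZMod 3 × ZMod 3, 9 * (Γ'.filter (fun z => rs z = r)).card + 9 < Γ.card := by
    intro r
    refine hcon (Γ'.filter (fun z => rs z = r)) ?_ ?_ ?_
    · intro z hz
      have := (Finset.mem_filter.1 hz).1
      rw [hΓ'] at this
      exact (Finset.mem_sdiff.1 this).1
    · intro z hz
      have := (Finset.mem_filter.1 hz).1
      rw [hΓ', Finset.mem_sdiff, mem_bx2] at this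
      omega
    · intro z hz w hw hzw
      exact far_of_rs ((Finset.mem_filter.1 hz).2.trans (Finset.mem_filter.1 hw).2.symm) hzw
  have h3 : Γ'.card = ∑ r : ZMod 3 × ZMod 3, (Γ'.filter (fun z => rs z = r)).card :=
    Finset.card_eq_sum_card_fiberwise (fun z _ => Finset.mem_coe.2 (Finset.mem_univ _))
  have h4 : ∑ r : ZMod 3 × ZMod 3, (9 * (Γ'.filter (fun z => rs z = r)).card + 9) <
      ∑ r : ZMod 3 × ZMod 3, Γ.card :=
    Finset.sum_lt_sum_of_nonempty Finset.univ_nonempty fun r _ => h2 r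
  rw [Finset.sum_add_distrib, ← Finset.mul_sum, ← h3, Finset.sum_const, Finset.sum_const,
    Finset.card_univ, Fintype.card_prod, ZMod.card] at h4
  simp only [smul_eq_mul] at h4
  omega

/-- the first bound for a set of blocks -/
theorem bound_a {p : ℝ} (h0 : 0 ≤ p) (h1 : p ≤ 1) {N : ℕ} (hN : 2 ≤ N)
    (he : eps (1 - p) N ≤ 1/100) {a : ℝ} (ha : 0 ≤ a)
    (hA : ∀ (S : Finset Edg), Pr (fun _ => p) S (LA (0, 0) N) ≤ a) (Γ : Finset Vtx)
    (S : Finset Edg) :
    Pr (fun _ => p) S (fun F => LA (0, 0) N F ∧ ∀ z ∈ Γ, G (2 ^ 6 * N) (ct (2 ^ 6 * N) z) F) ≤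
      a * (Real.exp 45 * Real.exp (-(5 * Γ.card))) := by
  classical
  obtain ⟨M, hM⟩ : ∃ M : ℕ, M = 2 ^ 6 * N := ⟨_, rfl⟩
  have hMN : M = 64 * N := by rw [hM]; norm_num
  obtain ⟨X, hX, hX1, hX2, hX3⟩ := exists_class Γ
  have ok := okq h0 h1
  have hinj : Set.InjOn (ct M) (↑X : Set Vtx) := by
    intro z _ w _ h
    unfold ct at h
    rw [Prod.mk.injEq] at h
    have hm : (2 * (M:ℤ) - 1) ≠ 0 := by omega
    exact Prod.ext (mul_left_cancel₀ hm h.1) (mul_left_cancel₀ hm h.2)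
  have hnv : ∀ (k : ℕ) (z w : Vtx), k ≤ nv (z - w) → k * (2 * M - 1) ≤ nv (ct M z - ct M w) := by
    intro k z w h
    have e : ct M z - ct M w = ((2 * (M:ℤ) - 1) * (z.1 - w.1), (2 * (M:ℤ) - 1) * (z.2 - w.2)) := by
      unfold ct
      ext <;> simp only [Prod.fst_sub, Prod.snd_sub] <;> ring
    rw [e]
    unfold nv at h ⊢
    simp only [Prod.fst_sub, Prod.snd_sub] at h ⊢
    rw [Int.natAbs_mul, Int.natAbs_mul]
    have e2 : (2 * (M:ℤ) - 1).natAbs = 2 * M - 1 := by omega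
    rw [e2]
    rcases le_max_iff.1 h with h | h
    · exact (Nat.mul_le_mul_right _ h).trans (by rw [mul_comm]; exact le_max_left _ _)
    · exact (Nat.mul_le_mul_right _ h).trans (by rw [mul_comm]; exact le_max_right _ _)
  have h2 := pr_AG h0 h1 (M := M) (N := N) (q := (1/4) ^ (2 ^ 6)) (a := a) (by positivity)
    (fun S c => by rw [hM]; exact pr_G h0 h1 hN he 6 S c) hA (X.image (ct M))
    (by
      intro x hx
      rw [Finset.mem_image] at hx
      obtain ⟨z, hz, rfl⟩ := hx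
      apply bo_disj
      have e : ((0, 0) : Vtx) = ct M (0, 0) := by unfold ct; simp
      have h3 := hnv 2 z (0, 0) (by
        have := hX1 z hz
        rwa [show z - ((0, 0) : Vtx) = z from sub_zero z])
      rw [e]
      omega)
    (by
      intro x hx y hy hxy
      rw [Finset.mem_image] at hx hy
      obtain ⟨z, hz, rfl⟩ := hx
      obtain ⟨w, hw, rfl⟩ := hy
      apply bo_disj
      have h3 := hnv 3 z w (hX2 z hz w hw (fun h => hxy (by rw [h])))
      omega) S
  rw [Finset.card_image_of_injOn hinj] at h2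
  rw [← hM]
  refine le_trans (le_trans (Pr_mono ok ?_) h2) ?_
  · rintro F _ ⟨k1, k2⟩
    refine ⟨k1, fun x hx => ?_⟩
    rw [Finset.mem_image] at hx
    obtain ⟨z, hz, rfl⟩ := hx
    exact k2 z (hX hz)
  · apply mul_le_mul_of_nonneg_left _ ha
    have h3 : ((1:ℝ)/4) ^ (2 ^ 6) ≤ Real.exp (-45) := quarter_pow_le (j := 6) (by norm_num)
    calc (((1:ℝ)/4) ^ (2 ^ 6)) ^ X.card ≤ (Real.exp (-45)) ^ X.card :=
          pow_le_pow_left₀ (by positivity) h3 _
      _ = Real.exp (-(45 * X.card)) := by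
          rw [← Real.exp_nat_mul]; congr 1; ring
      _ ≤ Real.exp (45 + -(5 * Γ.card)) := by
          apply Real.exp_le_exp.mpr
          have : (Γ.card : ℝ) ≤ 9 * X.card + 9 := by exact_mod_cast hX3
          linarith
      _ = _ := Real.exp_add _ _

/-- `S_ANI` -/
theorem t_ANI : S_ANI := by
  classical
  intro A hA
  obtain ⟨c, C, hc, hC, htail⟩ := tail A hA
  obtain ⟨C', hC'⟩ : ∃ C' : ℝ, C' = C * 16384 := ⟨_, rfl⟩
  have hC'0 : 0 < C' := by rw [hC']; positivity
  obtain ⟨c2, hc2⟩ : ∃ c2 : ℝ, c2 = c / (2 * (C' + 4)) := ⟨_, rfl⟩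
  have hc20 : 0 < c2 := by rw [hc2]; positivity
  have hc2c : c2 ≤ c / 2 := by
    rw [hc2]
    apply div_le_div_of_nonneg_left hc.le (by norm_num) (by linarith)
  refine ⟨c2, C + A * Real.exp 45, hc20, by positivity, 256, ?_⟩
  intro p N K n h0 hp hN he hUp
  have h1 : p ≤ 1 := by linarith
  have ok := okq h0 h1
  obtain ⟨M, hM⟩ : ∃ M : ℕ, M = 2 ^ 6 * N := ⟨_, rfl⟩
  have hMN : M = 64 * N := by rw [hM]; norm_num
  have hM1 : 1 ≤ M := by omega
  have hN0 : (0:ℝ) < N := by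
    have : 0 < N := by omega
    exact_mod_cast this
  obtain ⟨b, hb⟩ : ∃ b : ℝ, b = (N : ℝ) ^ (-(5/48) : ℝ) := ⟨_, rfl⟩
  have hb0 : 0 < b := by rw [hb]; positivity
  obtain ⟨l, hl⟩ : ∃ l : ℝ, l = n / (N : ℝ) ^ (91/48 : ℝ) := ⟨_, rfl⟩
  have hl0 : 0 ≤ l := by rw [hl]; positivity
  have hAr : ∀ S : Finset Edg, Pr (fun _ => p) S (LA (0, 0) N) ≤ A * b := by
    intro S
    refine (prLA h0 h1 S (0, 0) N).trans ?_
    rw [hb]
    exact (arm_anti h0 h1 (show (N - 1) / 2 ≤ N by omega)).trans (hUp N (by omega) le_rfl)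
  obtain ⟨Wd, hWd⟩ : ∃ Wd : Finset Vtx, Wd = (bx K).image (zt M) := ⟨_, rfl⟩
  obtain ⟨T, hT⟩ : ∃ T : Finset (Finset Vtx), T = Wd.powerset.filter (fun Γ : Finset Vtx =>
      1 ≤ Γ.card ∧ ∃ o ∈ ({(0, 0)} : Finset Vtx),
        _root_.Run7.h967.AL.Anim (fun P Q => Q ∈ nbz P) o Γ) := ⟨_, rfl⟩
  have hsum := _root_.Run7.h967.AL.anim_sum nbz 4 (by norm_num) nbz_symm card_nbz 1 (by norm_num)
    Wd {(0, 0)} 1 (by norm_num) (by simp) (1/32) (by norm_num) (by norm_num)
  have hsum' : ∑ Γ ∈ T, ((1:ℝ)/32) ^ Γ.card ≤ 1 := by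
    rw [hT]
    refine le_trans (le_of_eq ?_) (hsum.trans ?_)
    · refine Finset.sum_congr ?_ (fun _ _ => rfl)
      ext Γ
      simp only [Finset.mem_filter]
    · norm_num
  -- the union bound
  have step : Pr (fun _ => p) (boxE K) (fun F => n ≤ (cF K F).card ∧
        (∃ u, 256 * N ≤ nv u ∧ Reach (↑F : Set Edg) (0, 0) u) ∧ ¬ Arm K F) ≤
      Pr (fun _ => p) (boxE K) (fun F => ∃ Γ ∈ T, LA (0, 0) N F ∧ n ≤ (Ys (Db M Γ) N F).card ∧
        ∀ z ∈ Γ, G M (ct M z) F) := by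
    apply Pr_mono ok
    rintro F hF ⟨k1, ⟨u, hu, hru⟩, -⟩
    have hAn := Az_anim (K := K) hM1 hF
    refine ⟨Az M K F, ?_, LA_of_rad (by omega) hru (Reach.refl _ _), ?_, ?_⟩
    · simp only [hT, Finset.mem_filter, Finset.mem_powerset]
      refine ⟨?_, Finset.card_pos.2 ⟨_, hAn.1⟩, (0, 0), Finset.mem_singleton_self _, hAn⟩
      rw [hWd]
      unfold Az
      apply Finset.image_subset_image
      intro x hx
      rw [mem_bx2]
      exact (mem_cF.1 hx).1
    · refine k1.trans (Finset.card_le_card ?_)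
      intro x hx
      unfold Ys
      rw [Finset.mem_filter]
      refine ⟨mem_Db hM1 ?_, LA_of_rad (by omega) hru (mem_cF.1 hx).2⟩
      unfold Az
      exact Finset.mem_image_of_mem _ hx
    · intro z hz
      unfold Az at hz
      rw [Finset.mem_image] at hz
      obtain ⟨x, hx, rfl⟩ := hz
      have hrx := (mem_cF.1 hx).2
      have hxn := nv_zt hM1 x
      obtain ⟨y, hy, hry⟩ : ∃ y, 2 * M - 1 ≤ nv (y - ct M (zt M x)) ∧
          Reach (↑F : Set Edg) (0, 0) y := by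
        by_contra hcon
        push Not at hcon
        have j1 : nv ((0, 0) - ct M (zt M x)) < 2 * M - 1 := by
          by_contra h
          exact hcon (0, 0) (by omega) (Reach.refl _ _)
        have j2 : nv (u - ct M (zt M x)) < 2 * M - 1 := by
          by_contra h
          exact hcon u (by omega) hru
        unfold nv at j1 j2 hu
        simp only [Prod.fst_sub, Prod.snd_sub] at j1 j2
        omega
      exact G_of_reach hM1 hxn hy (hrx.symm.trans hry)
  refine step.trans ((pr_exists ok (boxE K) T _).trans ?_)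
  rw [← hb, ← hl]
  have hterm : ∀ Γ ∈ T, Pr (fun _ => p) (boxE K) (fun F => LA (0, 0) N F ∧
      n ≤ (Ys (Db M Γ) N F).card ∧ ∀ z ∈ Γ, G M (ct M z) F) ≤
      ((C + A * Real.exp 45) * b * Real.exp (-(c2 * l))) * ((1:ℝ)/32) ^ Γ.card := by
    intro Γ _
    have h32 : Real.exp (-(4 * (Γ.card : ℝ))) ≤ ((1:ℝ)/32) ^ Γ.card := by
      have e1 : Real.exp (-4) ≤ 1/32 := by
        rw [Real.exp_neg, one_div]
        apply inv_anti₀ (by norm_num)
        have h5 : (2.7:ℝ) ≤ Real.exp 1 := by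
          have := Real.exp_one_gt_d9
          linarith
        calc (32:ℝ) ≤ (2.7:ℝ) ^ 4 := by norm_num
          _ ≤ (Real.exp 1) ^ 4 := pow_le_pow_left₀ (by norm_num) h5 4
          _ = Real.exp 4 := by rw [← Real.exp_nat_mul]; norm_num
      calc Real.exp (-(4 * (Γ.card : ℝ))) = (Real.exp (-4)) ^ Γ.card := by
            rw [← Real.exp_nat_mul]; congr 1; ring
        _ ≤ _ := pow_le_pow_left₀ (Real.exp_pos _).le e1 _
    rcases le_or_gt ((C' + 4) * (Γ.card : ℝ)) (c / 2 * l) with hcase | hcase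
    · -- many vertices
      have hcard : (Db M Γ).card ≤ (Γ.card * 16384) * N ^ 2 := by
        refine (card_Db hM1 Γ).trans (le_of_eq ?_)
        rw [hMN]; ring
      have h3 := htail p N (Γ.card * 16384) n (Db M Γ) (boxE K) h0 h1 (by omega) hUp hcard
      rw [← hb, ← hl] at h3
      have h4 : Pr (fun _ => p) (boxE K) (fun F => LA (0, 0) N F ∧
          n ≤ (Ys (Db M Γ) N F).card ∧ ∀ z ∈ Γ, G M (ct M z) F) ≤
          C * b * Real.exp (C * ((Γ.card * 16384 : ℕ) : ℝ) - c * l) :=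
        le_trans (Pr_mono ok (fun F _ h => ⟨h.1, h.2.1⟩)) h3
      refine h4.trans ?_
      have h5 : Real.exp (C * ((Γ.card * 16384 : ℕ) : ℝ) - c * l) ≤
          Real.exp (-(c2 * l)) * ((1:ℝ)/32) ^ Γ.card := by
        calc Real.exp (C * ((Γ.card * 16384 : ℕ) : ℝ) - c * l)
            ≤ Real.exp (-(c2 * l) + -(4 * (Γ.card : ℝ))) := by
              apply Real.exp_le_exp.mpr
              push_cast
              have e : C * ((Γ.card : ℝ) * 16384) = C' * Γ.card := by rw [hC']; ring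
              rw [e]
              have := mul_le_mul_of_nonneg_right hc2c hl0
              nlinarith
          _ = Real.exp (-(c2 * l)) * Real.exp (-(4 * (Γ.card : ℝ))) := Real.exp_add _ _
          _ ≤ _ := mul_le_mul_of_nonneg_left h32 (Real.exp_pos _).le
      have h6 : 0 ≤ Real.exp (-(c2 * l)) * ((1:ℝ)/32) ^ Γ.card := by positivity
      have h7 : 0 ≤ A * Real.exp 45 := by positivity
      calc C * b * Real.exp (C * ((Γ.card * 16384 : ℕ) : ℝ) - c * l)
          ≤ C * b * (Real.exp (-(c2 * l)) * ((1:ℝ)/32) ^ Γ.card) :=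
            mul_le_mul_of_nonneg_left h5 (by positivity)
        _ ≤ (C + A * Real.exp 45) * b * (Real.exp (-(c2 * l)) * ((1:ℝ)/32) ^ Γ.card) := by
            apply mul_le_mul_of_nonneg_right _ h6
            apply mul_le_mul_of_nonneg_right _ hb0.le
            linarith
        _ = _ := by ring
    · -- many blocks
      have h3 := bound_a h0 h1 hN he (a := A * b) (by positivity) hAr Γ (boxE K)
      rw [← hM] at h3
      have h4 : Pr (fun _ => p) (boxE K) (fun F => LA (0, 0) N F ∧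
          n ≤ (Ys (Db M Γ) N F).card ∧ ∀ z ∈ Γ, G M (ct M z) F) ≤
          (A * b) * (Real.exp 45 * Real.exp (-(5 * Γ.card))) :=
        le_trans (Pr_mono ok (fun F _ h => ⟨h.1, h.2.2⟩)) h3
      refine h4.trans ?_
      have h5 : Real.exp (-(5 * (Γ.card : ℝ))) ≤ Real.exp (-(c2 * l)) * ((1:ℝ)/32) ^ Γ.card := by
        calc Real.exp (-(5 * (Γ.card : ℝ))) ≤ Real.exp (-(c2 * l) + -(4 * (Γ.card : ℝ))) := by
              apply Real.exp_le_exp.mpr
              have e : c2 * l ≤ Γ.card := by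
                have e2 : c2 * l = (c / 2 * l) / (C' + 4) := by
                  rw [hc2]; field_simp
                rw [e2, div_le_iff₀ (by linarith)]
                linarith
              linarith
          _ = Real.exp (-(c2 * l)) * Real.exp (-(4 * (Γ.card : ℝ))) := Real.exp_add _ _
          _ ≤ _ := mul_le_mul_of_nonneg_left h32 (Real.exp_pos _).le
      have h6 : 0 ≤ Real.exp (-(c2 * l)) * ((1:ℝ)/32) ^ Γ.card := by positivity
      calc (A * b) * (Real.exp 45 * Real.exp (-(5 * (Γ.card : ℝ))))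
          ≤ (A * b) * (Real.exp 45 * (Real.exp (-(c2 * l)) * ((1:ℝ)/32) ^ Γ.card)) := by
            apply mul_le_mul_of_nonneg_left _ (by positivity)
            exact mul_le_mul_of_nonneg_left h5 (Real.exp_pos _).le
        _ = (A * Real.exp 45) * b * (Real.exp (-(c2 * l)) * ((1:ℝ)/32) ^ Γ.card) := by ring
        _ ≤ (C + A * Real.exp 45) * b * (Real.exp (-(c2 * l)) * ((1:ℝ)/32) ^ Γ.card) := by
            apply mul_le_mul_of_nonneg_right _ h6
            apply mul_le_mul_of_nonneg_right _ hb0.le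
            linarith
        _ = _ := by ring
  refine (Finset.sum_le_sum hterm).trans ?_
  rw [← Finset.mul_sum]
  have h9 : 0 ≤ (C + A * Real.exp 45) * b * Real.exp (-(c2 * l)) := by positivity
  calc _ ≤ ((C + A * Real.exp 45) * b * Real.exp (-(c2 * l))) * 1 :=
        mul_le_mul_of_nonneg_left hsum' h9
    _ = _ := mul_one _

end Pool.Agent.Run7.h763.CS
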